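import Mathlib

/-! Row IZ of project JN: the size of the key expression. -/

set_option autoImplicit false

namespace Pool.Agent.Helper2.JN

section

variable {E : Type} [Field E] [CharZero E] (N : E → ℝ) (h0 : ∀ a, 0 ≤ N a)
  (hu : ∀ a b, N (a + b) ≤ max (N a) (N b)) (hm : ∀ a b, N (a * b) ≤ N a * N b)
  (hneg : ∀ a, N (-a) = N a) (hc : ∀ c : ℚ, N (c : E) ≤ 1)

include h0 hm in
lemma nmul {a b : E} {s t : ℝ} (ha : N a ≤ Real.exp s) (hb : N b ≤ Real.exp t) :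
    N (a * b) ≤ Real.exp (s + t) := by
  rw [Real.exp_add]
  exact (hm a b).trans (mul_le_mul ha hb (h0 b) (Real.exp_pos s).le)

include hu hneg in
lemma nsub {a b : E} {s : ℝ} (ha : N a ≤ s) (hb : N b ≤ s) : N (a - b) ≤ s := by
  rw [sub_eq_add_neg]
  refine (hu a (-b)).trans (max_le ha ?_)
  rw [hneg]
  exact hb

include hu in
lemma nadd {a b : E} {s : ℝ} (ha : N a ≤ s) (hb : N b ≤ s) : N (a + b) ≤ s :=
  (hu a b).trans (max_le ha hb)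

include h0 hu hm hneg hc in
/-- the key expression is small at the places of `J` -/
lemma key_small {β μ : ℝ} (hβ : β < 1 / 2) (hμ : μ < 3 / 2)
    {r r' b₁ b₂ ρ₁ ρ₂ y₁ y₂ : E} (hr : N r ≤ Real.exp 1) (hr' : N r' ≤ Real.exp (-1))
    (hrr : N (r * r' - 1) ≤ Real.exp (-4)) (hb1 : N b₁ ≤ Real.exp β) (hb2 : N b₂ ≤ Real.exp β)
    (hρ1 : N ρ₁ ≤ Real.exp (μ - 3)) (hρ2 : N ρ₂ ≤ Real.exp (μ - 3))
    (hy1 : y₁ = r ^ 3 + 3 / 2 * r * b₁ + 3 / 8 * r' * b₁ ^ 2 + ρ₁)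
    (hy2 : y₂ = r ^ 3 + 3 / 2 * r * b₂ + 3 / 8 * r' * b₂ ^ 2 + ρ₂) :
    N (8 * (y₁ - y₂) ^ 2 - 9 * ((b₁ + r ^ 2) + (b₂ + r ^ 2)) *
      ((b₁ + r ^ 2) - (b₂ + r ^ 2)) ^ 2) < 1 := by
  have hid : 8 * (y₁ - y₂) ^ 2 - 9 * ((b₁ + r ^ 2) + (b₂ + r ^ 2)) *
      ((b₁ + r ^ 2) - (b₂ + r ^ 2)) ^ 2 =
      ((b₁ - b₂) * (b₁ - b₂) * ((9 : ℚ) : E) * (r * r' - 1) * (b₁ + b₂)) +
      (((b₁ - b₂) * (b₁ - b₂) * ((9 / 8 : ℚ) : E) * r' * r' * (b₁ + b₂) * (b₁ + b₂)) +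
      (((b₁ - b₂) * ((24 : ℚ) : E) * r * (ρ₁ - ρ₂)) +
      (((b₁ - b₂) * ((6 : ℚ) : E) * r' * (b₁ + b₂) * (ρ₁ - ρ₂)) +
      (((8 : ℚ) : E) * (ρ₁ - ρ₂) * (ρ₁ - ρ₂))))) := by
    rw [hy1, hy2]
    push_cast
    ring
  rw [hid]
  have hc' : ∀ c : ℚ, N (c : E) ≤ Real.exp 0 := fun c => by
    rw [Real.exp_zero]
    exact hc c
  have hu1 := nsub N hu hneg hb1 hb2
  have hs1 := nadd N hu hb1 hb2
  have hρ := nsub N hu hneg hρ1 hρ2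
  have t1 := nmul N h0 hm (nmul N h0 hm (nmul N h0 hm (nmul N h0 hm hu1 hu1) (hc' 9)) hrr) hs1
  have t2 := nmul N h0 hm (nmul N h0 hm (nmul N h0 hm (nmul N h0 hm (nmul N h0 hm
    (nmul N h0 hm hu1 hu1) (hc' (9 / 8))) hr') hr') hs1) hs1
  have t3 := nmul N h0 hm (nmul N h0 hm (nmul N h0 hm hu1 (hc' 24)) hr) hρ
  have t4 := nmul N h0 hm (nmul N h0 hm (nmul N h0 hm (nmul N h0 hm hu1 (hc' 6)) hr') hs1) hρ
  have t5 := nmul N h0 hm (nmul N h0 hm (hc' 8) hρ) hρ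
  have e1 : N ((b₁ - b₂) * (b₁ - b₂) * ((9 : ℚ) : E) * (r * r' - 1) * (b₁ + b₂)) < 1 :=
    t1.trans_lt (Real.exp_lt_one_iff.2 (by linarith))
  have e2 : N ((b₁ - b₂) * (b₁ - b₂) * ((9 / 8 : ℚ) : E) * r' * r' * (b₁ + b₂) * (b₁ + b₂))
      < 1 := t2.trans_lt (Real.exp_lt_one_iff.2 (by linarith))
  have e3 : N ((b₁ - b₂) * ((24 : ℚ) : E) * r * (ρ₁ - ρ₂)) < 1 :=
    t3.trans_lt (Real.exp_lt_one_iff.2 (by linarith))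
  have e4 : N ((b₁ - b₂) * ((6 : ℚ) : E) * r' * (b₁ + b₂) * (ρ₁ - ρ₂)) < 1 :=
    t4.trans_lt (Real.exp_lt_one_iff.2 (by linarith))
  have e5 : N (((8 : ℚ) : E) * (ρ₁ - ρ₂) * (ρ₁ - ρ₂)) < 1 :=
    t5.trans_lt (Real.exp_lt_one_iff.2 (by linarith))
  have hadd : ∀ {a b : E}, N a < 1 → N b < 1 → N (a + b) < 1 := fun {a b} ha hb =>
    (hu a b).trans_lt (max_lt ha hb)
  exact hadd e1 (hadd e2 (hadd e3 (hadd e4 e5)))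

include h0 hu hm hneg hc in
/-- the key expression is integral at the other places -/
lemma key_le {y₁ y₂ a₁ a₂ : E} (hy1 : N y₁ ≤ 1) (hy2 : N y₂ ≤ 1) (ha1 : N a₁ ≤ 1)
    (ha2 : N a₂ ≤ 1) : N (8 * (y₁ - y₂) ^ 2 - 9 * (a₁ + a₂) * (a₁ - a₂) ^ 2) ≤ 1 := by
  have hid : 8 * (y₁ - y₂) ^ 2 - 9 * (a₁ + a₂) * (a₁ - a₂) ^ 2 =
      ((8 : ℚ) : E) * (y₁ - y₂) * (y₁ - y₂) -
        ((9 : ℚ) : E) * (a₁ + a₂) * (a₁ - a₂) * (a₁ - a₂) := by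
    push_cast
    ring
  rw [hid]
  have hc' : ∀ c : ℚ, N (c : E) ≤ Real.exp 0 := fun c => by
    rw [Real.exp_zero]
    exact hc c
  have hy := nsub N hu hneg hy1 hy2
  have hd := nsub N hu hneg ha1 ha2
  have hs := nadd N hu ha1 ha2
  rw [← Real.exp_zero] at hy hd hs
  have t1 := nmul N h0 hm (nmul N h0 hm (hc' 8) hy) hy
  have t2 := nmul N h0 hm (nmul N h0 hm (nmul N h0 hm (hc' 9) hs) hd) hd
  simp only [add_zero, Real.exp_zero] at t1 t2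
  exact nsub N hu hneg t1 t2

end

end Pool.Agent.Helper2.JN
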