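import Pool.Agent.Helper2.JN.IZa
import Pool.Agent.Helper2.JN.IZb
import Pool.Agent.Helper71.JN.SheetD

/-! Row IZK of project JN: the key identity for two conjugates (sheet D, `R i` in the field `K`). -/

set_option autoImplicit false

namespace Pool.Agent.Helper2.JN

open Polynomial Pool.Agent.Helper71.JN

/-- `z` has a denominator in `R` -/
def Den {F Ω : Type} [Field F] [Field Ω] [Algebra F Ω] {I : Type} [Fintype I] {r : ℕ}
    (D : SSF F Ω I r) (z : Ω) : Prop :=
  ∃ q ∈ D.R, q ≠ 0 ∧ q * z ∈ D.O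

section

variable {F Ω : Type} [Field F] [Field Ω] [Algebra F Ω] {I : Type} [Fintype I] {r : ℕ}
  {D : SSF F Ω I r}

theorem den_O {z : Ω} (hz : z ∈ D.O) : Den D z :=
  ⟨1, D.R.one_mem, one_ne_zero, by rwa [one_mul]⟩

theorem den_K (hRK : ST_RK) {z : Ω} (hz : z ∈ D.K) : Den D z := by
  obtain ⟨-, -, -, -, -, hRO, -, -, hev, -, -, hinj, hKq, -, -, -, -⟩ := hRK F Ω I r D
  obtain ⟨p, q, hq, rfl⟩ := hKq z hz
  have hq0 : D.ev q ≠ 0 := fun h => hq (hinj (by rw [h, map_zero]))
  refine ⟨D.ev q, hev q, hq0, ?_⟩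
  rw [mul_div_cancel₀ _ hq0]
  exact hRO _ (hev p)

theorem den_add (hRK : ST_RK) {z z' : Ω} (hz : Den D z) (hz' : Den D z') : Den D (z + z') := by
  obtain ⟨-, -, -, -, -, hRO, -⟩ := hRK F Ω I r D
  obtain ⟨q, h1, h2, h3⟩ := hz
  obtain ⟨q', h1', h2', h3'⟩ := hz'
  refine ⟨q * q', D.R.mul_mem h1 h1', mul_ne_zero h2 h2', ?_⟩
  have e : q * q' * (z + z') = q' * (q * z) + q * (q' * z') := by ring
  rw [e]
  exact D.O.add_mem (D.O.mul_mem (hRO _ h1') h3) (D.O.mul_mem (hRO _ h1) h3')

theorem den_neg {z : Ω} (hz : Den D z) : Den D (-z) := by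
  obtain ⟨q, h1, h2, h3⟩ := hz
  refine ⟨q, h1, h2, ?_⟩
  rw [mul_neg]
  exact D.O.neg_mem h3

theorem den_sub (hRK : ST_RK) {z z' : Ω} (hz : Den D z) (hz' : Den D z') : Den D (z - z') := by
  rw [sub_eq_add_neg]
  exact den_add hRK hz (den_neg hz')

theorem den_mul {z z' : Ω} (hz : Den D z) (hz' : Den D z') : Den D (z * z') := by
  obtain ⟨q, h1, h2, h3⟩ := hz
  obtain ⟨q', h1', h2', h3'⟩ := hz'
  refine ⟨q * q', D.R.mul_mem h1 h1', mul_ne_zero h2 h2', ?_⟩
  have e : q * q' * (z * z') = (q * z) * (q' * z') := by ring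
  rw [e]
  exact D.O.mul_mem h3 h3'

theorem den_pow {z : Ω} (hz : Den D z) (n : ℕ) : Den D (z ^ n) := by
  obtain ⟨q, h1, h2, h3⟩ := hz
  refine ⟨q ^ n, D.R.pow_mem h1 n, pow_ne_zero n h2, ?_⟩
  rw [← mul_pow]
  exact D.O.pow_mem h3 n

end

theorem IZK (hSPNK : ST_SPNK) (hPRIM : ST_PRIM) (hRIC : ST_RIC) (hRK : ST_RK)
    (hAPXK : ST_APXK) : ST_IZK := by
  intro F Ω _ _ _ _ I _ r D J α β x y R R' H hx q hq a₁ a₂ ha₁ ha₂
  classical
  obtain ⟨-, -, -, -, -, hRO, hRKm, -, -, -, -, -, -, hprod, -, -, -⟩ := hRK F Ω I r D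
  obtain ⟨hcst, hR', hyY⟩ := hAPXK F Ω I r D J α β x y R R' H
  haveI hK0 : CharZero D.K := ⟨fun m n h => by
    have h1 := congrArg (algebraMap D.K Ω) h
    rw [map_natCast, map_natCast] at h1
    exact Nat.cast_injective h1⟩
  -- the inclusion of `R` in `K`
  let φ : D.R →+* D.K := (algebraMap D.R Ω).codRestrict D.K (fun z => hRKm z z.2)
  have hφ : ∀ z : D.R, ((φ z : D.K) : Ω) = (z : Ω) := fun z => rfl
  -- integral elements of `Ω` have integral conjugates
  have hint : ∀ z : Ω, z ∈ D.O → IsIntegral D.K z → ∀ c : AlgebraicClosure D.K,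
      aeval c (minpoly D.K z) = 0 →
      ((algebraMap D.K (AlgebraicClosure D.K)).comp φ).IsIntegralElem c := by
    intro z hzO hz c hc
    have hl : minpoly D.K z ∈ lifts φ := by
      rw [lifts_iff_coeff_lifts]
      intro n
      exact ⟨⟨_, (hPRIM F Ω I r D z hzO hz n).1⟩, Subtype.ext rfl⟩
    obtain ⟨p, hp1, -, hp3⟩ := lifts_and_natDegree_eq_and_monic hl (minpoly.monic hz)
    refine ⟨p, hp3, ?_⟩
    rw [← eval₂_map, hp1, ← aeval_def]
    exact hc
  -- values of polynomials at `x`
  have hintx : ∀ P : D.K[X], IsIntegral D.K (aeval x P) := fun P =>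
    show aeval x P ∈ integralClosure D.K Ω from
      adjoin_le_integralClosure hx (Polynomial.aeval_mem_adjoin_singleton D.K x)
  have hy : IsIntegral D.K y := hq ▸ hintx q
  have hy₁ : aeval (aeval a₁ q) (minpoly D.K y) = 0 := by
    have := conj_root ha₁ q
    rwa [hq] at this
  have hy₂ : aeval (aeval a₂ q) (minpoly D.K y) = 0 := by
    have := conj_root ha₂ q
    rwa [hq] at this
  set y₁ := aeval a₁ q with hy₁def
  set y₂ := aeval a₂ q with hy₂def
  set Z : AlgebraicClosure D.K := 8 * (y₁ - y₂) ^ 2 - 9 * (a₁ + a₂) * (a₁ - a₂) ^ 2 with hZ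
  -- `Z` is integral over `R`
  have hZint : ((algebraMap D.K (AlgebraicClosure D.K)).comp φ).IsIntegralElem Z := by
    have i1 := hint x H.xO hx a₁ ha₁
    have i2 := hint x H.xO hx a₂ ha₂
    have j1 := hint y H.yO hy y₁ hy₁
    have j2 := hint y H.yO hy y₂ hy₂
    have n8 : ((algebraMap D.K (AlgebraicClosure D.K)).comp φ).IsIntegralElem 8 := by
      have := ((algebraMap D.K (AlgebraicClosure D.K)).comp φ).isIntegralElem_map (x := 8)
      rwa [map_ofNat] at this
    have n9 : ((algebraMap D.K (AlgebraicClosure D.K)).comp φ).IsIntegralElem 9 := by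
      have := ((algebraMap D.K (AlgebraicClosure D.K)).comp φ).isIntegralElem_map (x := 9)
      rwa [map_ofNat] at this
    have hZ' : Z = 8 * ((y₁ - y₂) * (y₁ - y₂)) - 9 * (a₁ + a₂) * ((a₁ - a₂) * (a₁ - a₂)) := by
      rw [hZ]
      ring
    rw [hZ']
    have e1 := RingHom.IsIntegralElem.sub _ j1 j2
    have e2 := RingHom.IsIntegralElem.sub _ i1 i2
    have e3 := RingHom.IsIntegralElem.add _ i1 i2
    exact RingHom.IsIntegralElem.sub _
      (RingHom.IsIntegralElem.mul _ n8 (RingHom.IsIntegralElem.mul _ e1 e1))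
      (RingHom.IsIntegralElem.mul _ (RingHom.IsIntegralElem.mul _ n9 e3)
        (RingHom.IsIntegralElem.mul _ e2 e2))
  have hZK : IsIntegral D.K Z := Algebra.IsIntegral.isIntegral Z
  set c₀ : D.K := (minpoly D.K Z).coeff 0 with hc₀
  have hc₀int : φ.IsIntegralElem c₀ := coeff_zero_integral φ Z hZK hZint
  have hc₀R : (c₀ : Ω) ∈ D.R := by
    apply hRIC F Ω I r D (c₀ : Ω) c₀.2
    have h1 := hc₀int.map (algebraMap D.K Ω)
    exact h1
  -- constants
  have hcO : ∀ c : ℚ, (c : Ω) ∈ D.O := by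
    haveI : CharZero F := ⟨fun m n h => by
      have h1 := congrArg (algebraMap F Ω) h
      rw [map_natCast, map_natCast] at h1
      exact Nat.cast_injective h1⟩
    intro c
    have := D.FO (c : F)
    rwa [map_ratCast] at this
  -- the size of `Z`
  have hsize : ∀ i, (i ∈ J → D.nu i (c₀ : Ω) < 1) ∧ (i ∉ J → D.nu i (c₀ : Ω) ≤ 1) := by
    intro i
    obtain ⟨N, h0, hu, hm, hneg, hNK, hNO, hNc⟩ := hSPNK F Ω I r D i
    have hc : ∀ c : ℚ, N (c : AlgebraicClosure D.K) ≤ 1 := by
      intro c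
      have h1 : (c : AlgebraicClosure D.K) =
          algebraMap D.K (AlgebraicClosure D.K) (c : D.K) := by
        rw [map_ratCast]
      rw [h1, hNK]
      have h2 : (((c : D.K)) : Ω) = (c : Ω) := by
        exact map_ratCast (algebraMap D.K Ω) c
      rw [h2]
      rcases eq_or_ne c 0 with h | h
      · rw [h]
        simp
      · exact (hcst i c h).le
    have hdeg : (minpoly D.K Z).natDegree ≠ 0 := (minpoly.natDegree_pos hZK).ne'
    constructor
    · intro hi
      -- the elements `R`, `R'`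
      let k : D.K := ⟨R i, H.RR i hi⟩
      let k' : D.K := ⟨R' i, H.RR' i hi⟩
      have hkΩ : algebraMap D.K Ω k = R i := rfl
      have hk'Ω : algebraMap D.K Ω k' = R' i := rfl
      have hRiO : Den D (R i) := den_K hRK (H.RR i hi)
      have hR'iO : Den D (R' i) := den_K hRK (H.RR' i hi)
      let Pb : D.K[X] := X - C (k ^ 2)
      have hPbx : aeval x Pb = x - R i ^ 2 := by
        simp only [Pb, map_sub, aeval_X, aeval_C, map_pow, hkΩ]
      let Py : D.K[X] := q - (C (k ^ 3) + C (3 / 2 * k) * Pb + C (3 / 8 * k') * Pb ^ 2)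
      have hPyx : aeval x Py = y - Y2 x (R i) (R' i) := by
        simp only [Py, map_sub, map_add, map_mul, map_pow, aeval_C, hPbx, hkΩ, hk'Ω, hq, Y2,
          map_div₀, map_ofNat]
      have hbO : Den D (x - R i ^ 2) := den_sub hRK (den_O H.xO) (den_pow hRiO 2)
      have hρO : Den D (y - Y2 x (R i) (R' i)) := by
        refine den_sub hRK (den_O H.yO) ?_
        unfold Y2
        have c32 : Den D (3 / 2 : Ω) := by
          have := hcO (3 / 2)
          push_cast at this
          exact den_O this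
        have c38 : Den D (3 / 8 : Ω) := by
          have := hcO (3 / 8)
          push_cast at this
          exact den_O this
        exact den_add hRK (den_add hRK (den_pow hRiO 3) (den_mul (den_mul c32 hRiO) hbO))
          (den_mul (den_mul c38 hR'iO) (den_pow hbO 2))
      have hb : ∀ a : AlgebraicClosure D.K, aeval a (minpoly D.K x) = 0 →
          N (aeval a Pb) ≤ Real.exp β := by
        intro a ha
        have h1 := conj_root ha Pb
        rw [hPbx] at h1
        exact (hNO _ hbO (hPbx ▸ hintx Pb) _ h1).trans (H.s2 i hi)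
      have hρ : ∀ a : AlgebraicClosure D.K, aeval a (minpoly D.K x) = 0 →
          N (aeval a Py) ≤ Real.exp (max α (3 * β) - 3) := by
        intro a ha
        have h1 := conj_root ha Py
        rw [hPyx] at h1
        exact (hNO _ hρO (hPyx ▸ hintx Py) _ h1).trans (hyY i hi)
      have hbe : ∀ a : AlgebraicClosure D.K, a = aeval a Pb +
          (algebraMap D.K (AlgebraicClosure D.K) k) ^ 2 := by
        intro a
        simp only [Pb, map_sub, aeval_X, aeval_C, map_pow]
        ring
      have hye : ∀ a : AlgebraicClosure D.K, aeval a q =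
          (algebraMap D.K (AlgebraicClosure D.K) k) ^ 3 +
          3 / 2 * (algebraMap D.K (AlgebraicClosure D.K) k) * aeval a Pb +
          3 / 8 * (algebraMap D.K (AlgebraicClosure D.K) k') * aeval a Pb ^ 2 + aeval a Py := by
        intro a
        simp only [Py, map_sub, map_add, map_mul, map_pow, aeval_C, map_div₀, map_ofNat]
        ring
      have hZlt : N Z < 1 := by
        have key := key_small N h0 hu hm hneg hc (β := β) (μ := max α (3 * β)) H.hβ
          (max_lt (by linarith [H.hα]) (by linarith [H.hβ]))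
          (r := algebraMap D.K (AlgebraicClosure D.K) k)
          (r' := algebraMap D.K (AlgebraicClosure D.K) k')
          (by rw [hNK]; exact (H.s1 i hi).le) (by rw [hNK]; exact (hR' i hi).le)
          (by
            have h1 : algebraMap D.K (AlgebraicClosure D.K) k *
                algebraMap D.K (AlgebraicClosure D.K) k' - 1 =
                algebraMap D.K (AlgebraicClosure D.K) (k * k' - 1) := by
              rw [map_sub, map_mul, map_one]
            rw [h1, hNK]
            exact H.s3 i hi)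
          (hb a₁ ha₁) (hb a₂ ha₂) (hρ a₁ ha₁) (hρ a₂ ha₂) (hye a₁) (hye a₂)
        rw [← hbe a₁, ← hbe a₂] at key
        exact key
      exact (hNc Z).trans_lt (pow_lt_one₀ (h0 Z) hZlt hdeg)
    · intro hi
      have hZle : N Z ≤ 1 := by
        refine key_le N h0 hu hm hneg hc ?_ ?_ ?_ ?_
        · exact (hNO y (den_O H.yO) hy _ hy₁).trans (H.fy i hi)
        · exact (hNO y (den_O H.yO) hy _ hy₂).trans (H.fy i hi)
        · exact (hNO x (den_O H.xO) hx _ ha₁).trans (H.fx i hi)
        · exact (hNO x (den_O H.xO) hx _ ha₂).trans (H.fx i hi)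
      exact (hNc Z).trans (pow_le_one₀ (h0 Z) hZle)
  -- the product formula
  have hc₀0 : c₀ = 0 := by
    by_contra hne
    have hne' : (c₀ : Ω) ≠ 0 := by
      intro h
      exact hne (Subtype.ext h)
    have h1 := hprod (c₀ : Ω) (hRO _ hc₀R) hne'
    obtain ⟨j, hj⟩ := H.hJ
    have hle : ∀ i, D.nu i (c₀ : Ω) ≤ 1 := fun i => by
      by_cases hi : i ∈ J
      · exact ((hsize i).1 hi).le
      · exact (hsize i).2 hi
    rw [← Finset.mul_prod_erase Finset.univ _ (Finset.mem_univ j)] at h1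
    have h2 : ∏ i ∈ Finset.univ.erase j, D.nu i (c₀ : Ω) ≤ 1 :=
      Finset.prod_le_one (fun i _ => (D.nu i).nonneg _) (fun i _ => hle i)
    have h3 := (hsize j).1 hj
    have h4 : 0 ≤ D.nu j (c₀ : Ω) := (D.nu j).nonneg _
    have h5 : 0 ≤ ∏ i ∈ Finset.univ.erase j, D.nu i (c₀ : Ω) :=
      Finset.prod_nonneg fun i _ => (D.nu i).nonneg _
    nlinarith
  have hZ0 : Z = 0 := (minpoly.coeff_zero_eq_zero hZK).1 hc₀0
  rw [hZ] at hZ0
  exact sub_eq_zero.1 hZ0

end Pool.Agent.Helper2.JN
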