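import Pool.Agent.Helper71.JN.SheetB

/-! Row IZ of project JN, general lemmas on conjugates and integrality. -/

set_option autoImplicit false

namespace Pool.Agent.Helper2.JN

open Polynomial

/-- a root of the minimal polynomial of `x` is mapped by `P` to a root of that of `P(x)` -/
lemma conj_root {K Ω E : Type} [Field K] [Field Ω] [Field E] [Algebra K Ω] [Algebra K E]
    {x : Ω} {a : E} (ha : aeval a (minpoly K x) = 0) (P : K[X]) :
    aeval (aeval a P) (minpoly K (aeval x P)) = 0 := by
  have h1 : aeval x ((minpoly K (aeval x P)).comp P) = 0 := by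
    rw [aeval_comp, minpoly.aeval]
  obtain ⟨g, hg⟩ := minpoly.dvd K x h1
  have h2 : aeval a ((minpoly K (aeval x P)).comp P) = 0 := by
    rw [hg, map_mul, ha, zero_mul]
  rwa [aeval_comp] at h2

lemma integral_multiset_prod {A S : Type} [CommRing A] [CommRing S] (f : A →+* S)
    (s : Multiset S) (h : ∀ x ∈ s, f.IsIntegralElem x) : f.IsIntegralElem s.prod := by
  induction s using Multiset.induction_on with
  | empty =>
    rw [Multiset.prod_zero]
    simpa using f.isIntegralElem_map (x := 1)
  | cons a s ih =>
    rw [Multiset.prod_cons]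
    exact RingHom.IsIntegralElem.mul f (h a (Multiset.mem_cons_self a s))
      (ih fun x hx => h x (Multiset.mem_cons_of_mem hx))

/-- the constant coefficient of the minimal polynomial of an integral element is integral -/
lemma coeff_zero_integral {A K E : Type} [CommRing A] [Field K] [Field E] [Algebra K E]
    [IsAlgClosed E] (φ : A →+* K) (Z : E) (hKZ : IsIntegral K Z)
    (hZ : ((algebraMap K E).comp φ).IsIntegralElem Z) :
    φ.IsIntegralElem ((minpoly K Z).coeff 0) := by
  obtain ⟨P, hP, hPZ⟩ := hZ
  have hdvd : minpoly K Z ∣ P.map φ := by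
    apply minpoly.dvd
    rw [aeval_def, eval₂_map]
    exact hPZ
  have hroots : ∀ c : E, c ∈ ((minpoly K Z).map (algebraMap K E)).roots →
      ((algebraMap K E).comp φ).IsIntegralElem c := by
    intro c hc
    refine ⟨P, hP, ?_⟩
    have hc' : aeval c (minpoly K Z) = 0 := by
      have := (Polynomial.mem_roots'.1 hc).2
      rwa [IsRoot.def, eval_map_algebraMap] at this
    obtain ⟨g, hg⟩ := hdvd
    have h3 : aeval c (P.map φ) = 0 := by rw [hg, map_mul, hc', zero_mul]
    rwa [aeval_def, eval₂_map] at h3
  have hmon : (minpoly K Z).Monic := minpoly.monic hKZ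
  have hsp : Splits ((minpoly K Z).map (algebraMap K E)) := IsAlgClosed.splits _
  have h0 := hsp.coeff_zero_eq_prod_roots_of_monic (hmon.map _)
  rw [coeff_map] at h0
  apply RingHom.IsIntegralElem.of_map (g := algebraMap K E) (algebraMap K E).injective
  rw [h0]
  apply RingHom.IsIntegralElem.mul
  · have h1 : ((algebraMap K E).comp φ)
        ((-1) ^ ((minpoly K Z).map (algebraMap K E)).natDegree) =
        (-1) ^ ((minpoly K Z).map (algebraMap K E)).natDegree := by simp
    rw [← h1]
    exact RingHom.isIntegralElem_map _
  · exact integral_multiset_prod _ _ hroots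

end Pool.Agent.Helper2.JN
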