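import Pool.Agent.Helper71.JN.SheetB

/-! Row SSX of project JN: the Subspace theorem with arbitrary finite families. -/

set_option autoImplicit false

namespace Pool.Agent.Helper2.JN

open Pool.Agent.Helper71.JN

theorem SSX : ST_SSX := by
  intro F Ω _ _ _ I _ r D ι κ _ e T f heO hli hcard hfe hef
  classical
  let ε : ι ≃ Fin (Fintype.card ι) := Fintype.equivFin ι
  let τ : ∀ i : I, (T i) ≃ Fin (Fintype.card ι) := fun i => Finset.equivFinOfCardEq (hcard i)
  have h := D.ss (Fintype.card ι) (fun k => e (ε.symm k))
    (fun i k => f i ((τ i).symm k : κ)) (fun k => heO _)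
    (hli.comp _ ε.symm.injective) (by
      intro i
      have h1 : Set.range (fun k => f i ((τ i).symm k : κ)) = f i '' (T i : Set κ) := by
        ext z
        constructor
        · rintro ⟨k, rfl⟩
          exact ⟨_, ((τ i).symm k).2, rfl⟩
        · rintro ⟨a, ha, rfl⟩
          exact ⟨τ i ⟨a, ha⟩, by simp⟩
      have h2 : Set.range (fun k => e (ε.symm k)) = Set.range e := by
        ext z
        constructor
        · rintro ⟨k, rfl⟩
          exact ⟨_, rfl⟩
        · rintro ⟨a, rfl⟩
          exact ⟨ε a, by simp⟩
      rw [h1, h2]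
      apply le_antisymm
      · rw [Submodule.span_le]
        rintro z ⟨a, ha, rfl⟩
        exact hfe i a ha
      · rw [Submodule.span_le]
        rintro z ⟨a, rfl⟩
        exact hef i a)
  refine h.trans (le_of_eq ?_)
  refine Finset.prod_congr rfl fun i _ => ?_
  rw [← Finset.prod_coe_sort (T i) (fun k => D.nu i (f i k))]
  exact Fintype.prod_equiv (τ i).symm _ _ (fun k => rfl)

end Pool.Agent.Helper2.JN
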