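import Pool.Agent.Helper71.JN.SheetC
import Pool.Agent.Helper2.SUBW.T1CW

/-!
Project JN, row T1CJ: `y` is close to `w ^ 3 +` smaller terms, `x` is an arbitrary integer.
-/

set_option autoImplicit false

namespace Pool.Agent.Helper2.JN

open Filter Finset Pool.Agent.Helper70.SUB Pool.Agent.Helper77.SUBK Pool.Agent.Helper70.SUBL
  Pool.Agent.Helper70.SUBW Pool.Agent.Helper71.JN

/-- the cube roots of a number close to `x ^ 3`, weak form -/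
theorem nearJ (ζ : ℂ) (hζ : ζ ^ 2 + ζ + 1 = 0) {η : ℝ} (h0 : 0 < η) (h4 : η ≤ 1 / 4)
    {X x y : ℝ} {R : ℂ} (hX : 2 ≤ X) (hXη : 6144 ≤ X ^ η) (hx : x = X ^ 2)
    (hd : |y ^ 2 - x ^ 3| ≤ x) (hR : X / 4 ≤ ‖R‖)
    (hy : ‖(y : ℂ) - R ^ 3‖ ≤ X ^ (3 / 2 - 2 * η)) :
    ∃ i : Fin 3, ‖(x : ℂ) - ζ ^ (i : ℕ) * R ^ 2‖ ≤ X ^ (1 / 2 - η) := by
  have Xp : 0 < X := by linarith
  have z3 : ζ ^ 3 = 1 := by linear_combination (ζ - 1) * hζ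
  have nz : ‖ζ‖ = 1 := by
    have h1 : ‖ζ‖ ^ 3 = 1 := by rw [← norm_pow, z3, norm_one]
    exact (pow_eq_one_iff_of_nonneg (norm_nonneg _) (by norm_num)).1 h1
  have n1 : 1 ≤ ‖1 - ζ‖ := by
    have h1 : ‖1 - ζ‖ ^ 2 = 3 := by
      rw [← norm_pow]
      have : (1 - ζ) ^ 2 = -(3 * ζ) := by linear_combination hζ
      rw [this, norm_neg, norm_mul, nz]
      norm_num
    by_contra hlt
    push Not at hlt
    nlinarith [norm_nonneg (1 - ζ)]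
  obtain ⟨F, hF⟩ : ∃ F : ℂ, F = R ^ 2 := ⟨_, rfl⟩
  rw [← hF]
  have hF0 := norm_nonneg F
  -- the three distances
  have d1 : ‖F‖ ≤ ‖(x : ℂ) - F‖ + ‖(x : ℂ) - ζ * F‖ := by
    have h1 : (1 - ζ) * F = ((x : ℂ) - ζ * F) - ((x : ℂ) - F) := by ring
    have h2 : ‖(1 - ζ) * F‖ ≤ ‖(x : ℂ) - ζ * F‖ + ‖(x : ℂ) - F‖ := by
      rw [h1]
      exact norm_sub_le _ _
    rw [norm_mul] at h2
    nlinarith
  have d2 : ‖F‖ ≤ ‖(x : ℂ) - F‖ + ‖(x : ℂ) - ζ ^ 2 * F‖ := by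
    have h1 : (1 - ζ) * F * ζ ^ 2 = ((x : ℂ) - F) - ((x : ℂ) - ζ ^ 2 * F) := by
      linear_combination (-F) * z3
    have h2 : ‖(1 - ζ) * F * ζ ^ 2‖ ≤ ‖(x : ℂ) - F‖ + ‖(x : ℂ) - ζ ^ 2 * F‖ := by
      rw [h1]
      exact norm_sub_le _ _
    rw [norm_mul, norm_mul, norm_pow, nz, one_pow, mul_one] at h2
    nlinarith
  have d3 : ‖F‖ ≤ ‖(x : ℂ) - ζ * F‖ + ‖(x : ℂ) - ζ ^ 2 * F‖ := by
    have h1 : (1 - ζ) * F * ζ = ((x : ℂ) - ζ ^ 2 * F) - ((x : ℂ) - ζ * F) := by ring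
    have h2 : ‖(1 - ζ) * F * ζ‖ ≤ ‖(x : ℂ) - ζ ^ 2 * F‖ + ‖(x : ℂ) - ζ * F‖ := by
      rw [h1]
      exact norm_sub_le _ _
    rw [norm_mul, norm_mul, nz, mul_one] at h2
    nlinarith
  -- the size of the product
  have e1 : X ^ (3 / 2 - 2 * η) ≤ X ^ 3 := by
    rw [← Real.rpow_natCast]
    exact Real.rpow_le_rpow_of_exponent_le (by linarith) (by push_cast; linarith)
  have x1 : 4 ≤ x := by rw [hx]; nlinarith
  have e2 : |y| ≤ 2 * X ^ 3 := by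
    refine abs_le_of_sq_le_sq ?_ (by positivity)
    have h5 := (abs_le.1 hd).2
    have h6 : x ≤ x ^ 3 := by nlinarith [mul_nonneg (by linarith : 0 ≤ x) (by nlinarith :
      (0 : ℝ) ≤ x ^ 2 - 1)]
    have h7 : x ^ 3 = (X ^ 3) ^ 2 := by rw [hx]; ring
    nlinarith [sq_nonneg (X ^ 3)]
  have e3 : ‖(y : ℂ) + R ^ 3‖ ≤ 5 * X ^ 3 := by
    have h5 : (y : ℂ) + R ^ 3 = 2 * (y : ℂ) - ((y : ℂ) - R ^ 3) := by ring
    rw [h5]
    refine (norm_sub_le _ _).trans ?_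
    rw [norm_mul, Complex.norm_real, Real.norm_eq_abs, Complex.norm_ofNat]
    linarith
  have e4 : ‖F ^ 3 - (x : ℂ) ^ 3‖ ≤ 6 * (X ^ 3 * X ^ (3 / 2 - 2 * η)) := by
    have h5 : F ^ 3 - (x : ℂ) ^ 3 =
        ((y ^ 2 - x ^ 3 : ℝ) : ℂ) - ((y : ℂ) - R ^ 3) * ((y : ℂ) + R ^ 3) := by
      rw [hF]
      push_cast
      ring
    have h6 : ‖((y : ℂ) - R ^ 3) * ((y : ℂ) + R ^ 3)‖ ≤ X ^ (3 / 2 - 2 * η) * (5 * X ^ 3) := by
      rw [norm_mul]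
      exact mul_le_mul hy e3 (norm_nonneg _) (by positivity)
    have h7 : x ≤ X ^ 3 * X ^ (3 / 2 - 2 * η) := by
      have h8 : (1 : ℝ) ≤ X ^ (3 / 2 - 2 * η) := Real.one_le_rpow (by linarith) (by linarith)
      have h9 : x ≤ X ^ 3 := by
        rw [hx]
        nlinarith [sq_nonneg X]
      nlinarith [pow_pos Xp 3]
    rw [h5]
    refine (norm_sub_le _ _).trans ?_
    rw [Complex.norm_real, Real.norm_eq_abs]
    nlinarith
  have hprod : ‖(x : ℂ) - F‖ * ‖(x : ℂ) - ζ * F‖ * ‖(x : ℂ) - ζ ^ 2 * F‖ ≤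
      6 * (X ^ 3 * X ^ (3 / 2 - 2 * η)) := by
    rw [← norm_mul, ← norm_mul]
    have : ((x : ℂ) - F) * ((x : ℂ) - ζ * F) * ((x : ℂ) - ζ ^ 2 * F) = -(F ^ 3 - (x : ℂ) ^ 3) := by
      linear_combination (-(F : ℂ) * (x : ℂ) ^ 2 + (x : ℂ) * F ^ 2 * ζ) * hζ - F ^ 3 * z3
    rw [this, norm_neg]
    exact e4
  -- size of F
  have sF : X ^ 4 / 256 ≤ ‖F‖ ^ 2 := by
    have h5 := pow_le_pow_left₀ (by linarith) hR 4
    have h6 : ‖F‖ ^ 2 = ‖R‖ ^ 4 := by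
      rw [hF, norm_pow]
      ring
    rw [h6]
    calc X ^ 4 / 256 = (X / 4) ^ 4 := by ring
      _ ≤ _ := h5
  -- conclusion
  have fin : ∀ A : ℝ, 0 ≤ A → A * ‖F‖ ^ 2 ≤ 4 * (6 * (X ^ 3 * X ^ (3 / 2 - 2 * η))) →
      A ≤ X ^ (1 / 2 - η) := by
    intro A hA hAF
    have g1 : A * (X ^ 4 / 256) ≤ A * ‖F‖ ^ 2 := mul_le_mul_of_nonneg_left sF hA
    have g2 : A * X ^ 4 ≤ 6144 * (X ^ 3 * X ^ (3 / 2 - 2 * η)) := by linarith
    have g3 : X ^ 3 * X ^ (3 / 2 - 2 * η) = X ^ 4 * X ^ (1 / 2 - 2 * η) := by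
      rw [← Real.rpow_natCast, ← Real.rpow_natCast, ← Real.rpow_add Xp, ← Real.rpow_add Xp]
      congr 1
      push_cast
      ring
    have g4 : X ^ (1 / 2 - η) = X ^ η * X ^ (1 / 2 - 2 * η) := by
      rw [← Real.rpow_add Xp]
      congr 1
      ring
    rw [g3] at g2
    have g5 : A ≤ 6144 * X ^ (1 / 2 - 2 * η) := by
      refine le_of_mul_le_mul_right ?_ (pow_pos Xp 4)
      linarith
    rw [g4]
    exact g5.trans (mul_le_mul_of_nonneg_right hXη (by positivity))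
  rcases SUBK.three (norm_nonneg _) (norm_nonneg _) (norm_nonneg _) hF0 d1 d2 d3 hprod with
    h | h | h
  · refine ⟨0, ?_⟩
    have := fin _ (norm_nonneg _) h
    simpa using this
  · refine ⟨1, ?_⟩
    have := fin _ (norm_nonneg _) h
    simpa using this
  · refine ⟨2, ?_⟩
    have := fin _ (norm_nonneg _) h
    simpa using this

/-- the sizes of the terms -/
theorem sizeJ {t : ℕ} {δ X Y W V : ℝ} (hδ : 0 < δ) (hX : 2 ≤ X) (ht : (t : ℝ) * 2 ^ δ ≤ X ^ (δ / 2))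
    (hXY : X ^ 3 ≤ 2 * Y) (hYW : Y ≤ 2 * W ^ 3) (hW : 0 ≤ W) (hV : V ≤ t * W ^ (3 - δ)) :
    X / 2 ≤ W ∧ V ≤ W ^ 3 * X ^ (-(δ / 2)) := by
  have Xp : 0 < X := by linarith
  have h1 : X / 2 ≤ W := by
    refine le_of_pow_le_pow_left₀ (n := 3) (by norm_num) hW ?_
    have h2 : (X / 2) ^ 3 = X ^ 3 / 8 := by ring
    rw [h2]
    nlinarith [pow_pos Xp 3]
  have Wp : 0 < W := by linarith
  refine ⟨h1, hV.trans ?_⟩
  have h2 : W ^ (3 - δ) = W ^ 3 * W ^ (-δ) := by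
    rw [← Real.rpow_natCast, ← Real.rpow_add Wp]
    congr 1
  have h3 : W ^ (-δ) ≤ 2 ^ δ * (X ^ (-(δ / 2)) * X ^ (-(δ / 2))) := by
    have h4 : W ^ (-δ) ≤ (X / 2) ^ (-δ) := by
      rw [Real.rpow_neg Wp.le, Real.rpow_neg (by linarith)]
      exact inv_anti₀ (by positivity) (Real.rpow_le_rpow (by linarith) h1 hδ.le)
    refine h4.trans (le_of_eq ?_)
    rw [Real.div_rpow Xp.le (by norm_num), ← Real.rpow_add Xp, Real.rpow_neg (by norm_num : (0 : ℝ) ≤ 2),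
      div_inv_eq_mul, mul_comm]
    congr 2
    ring
  have h5 : X ^ (δ / 2) * X ^ (-(δ / 2)) = 1 := by
    rw [← Real.rpow_add Xp, add_neg_cancel, Real.rpow_zero]
  have h6 : (t : ℝ) * 2 ^ δ * X ^ (-(δ / 2)) ≤ 1 := by
    rw [← h5]
    exact mul_le_mul_of_nonneg_right ht (by positivity)
  have h7 : (t : ℝ) * W ^ (-δ) ≤ X ^ (-(δ / 2)) := by
    calc (t : ℝ) * W ^ (-δ) ≤ t * (2 ^ δ * (X ^ (-(δ / 2)) * X ^ (-(δ / 2)))) :=
          mul_le_mul_of_nonneg_left h3 (Nat.cast_nonneg t)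
      _ = ((t : ℝ) * 2 ^ δ * X ^ (-(δ / 2))) * X ^ (-(δ / 2)) := by ring
      _ ≤ 1 * X ^ (-(δ / 2)) := mul_le_mul_of_nonneg_right h6 (by positivity)
      _ = _ := one_mul _
  rw [h2]
  calc (t : ℝ) * (W ^ 3 * W ^ (-δ)) = W ^ 3 * (t * W ^ (-δ)) := by ring
    _ ≤ _ := mul_le_mul_of_nonneg_left h7 (by positivity)

/-- the distance of `y` -/
theorem distJ {η η' X Y D1 D2 : ℝ} (hη : 0 < η') (h4 : η' ≤ 1 / 4) (hηη : η' ≤ η) (hX : 2 ≤ X)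
    (hXη : 6144 ≤ X ^ η') (hY1 : 1 ≤ Y) (hY : Y ≤ 2 * X ^ 3) (h1 : D1 ≤ Y ^ (1 / 2 - η))
    (h2 : D2 ≤ X ^ (-4 : ℝ)) : D1 + D2 ≤ X ^ (3 / 2 - 2 * η') := by
  have Xp : 0 < X := by linarith
  have e1 : Y ^ (1 / 2 - η) ≤ 2 * X ^ (3 / 2 - 3 * η') := by
    calc Y ^ (1 / 2 - η) ≤ Y ^ (1 / 2 - η') :=
          Real.rpow_le_rpow_of_exponent_le hY1 (by linarith)
      _ ≤ (2 * X ^ 3) ^ (1 / 2 - η') := Real.rpow_le_rpow (by linarith) hY (by linarith)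
      _ = 2 ^ (1 / 2 - η') * X ^ (3 / 2 - 3 * η') := by
          rw [Real.mul_rpow (by norm_num) (by positivity), ← Real.rpow_natCast X 3,
            ← Real.rpow_mul Xp.le]
          congr 2
          push_cast
          ring
      _ ≤ 2 * X ^ (3 / 2 - 3 * η') := by
          refine mul_le_mul_of_nonneg_right ?_ (by positivity)
          conv_rhs => rw [← Real.rpow_one 2]
          exact Real.rpow_le_rpow_of_exponent_le (by norm_num) (by linarith)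
  have e2 : X ^ (-4 : ℝ) ≤ X ^ (3 / 2 - 3 * η') :=
    Real.rpow_le_rpow_of_exponent_le (by linarith) (by linarith)
  have e3 : X ^ (3 / 2 - 2 * η') = X ^ η' * X ^ (3 / 2 - 3 * η') := by
    rw [← Real.rpow_add Xp]
    congr 1
    ring
  have e4 : 0 < X ^ (3 / 2 - 3 * η') := by positivity
  rw [e3]
  nlinarith

/-- **T1CJ**. -/
theorem T1CJ (hEXTW : ST_EXTW) (hPFE : ST_PFE) (hSLW : ST_SLW) (hSPW : ST_SPW) (hMOD2 : ST_MOD2)
    (hROOT : ST_ROOT) (hBRG : ST_BRG) : ST_T1CJ := by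
  classical
  intro M _ _ _ S ψ ζ k t g ε δ η B hS hg hζ hε hδ hδ3 hη
  obtain ⟨P, hP⟩ := hPFE M S ψ hS
  by_contra hcon
  obtain ⟨s, φ, hxt, hs, hκ⟩ := hEXTW (M × (Fin t → ℤ) × (Fin t → M) × ℤ × ℤ)
    (fun κ q => SV S q.1 ∧ (∀ i, SV S (q.2.2.1 i)) ∧
      (∀ i, |(q.2.1 i : ℝ)| ≤ |(q.2.2.2.2 : ℝ)| ^ κ) ∧
      (∀ i, ‖ψ ((q.2.1 i : M) * q.2.2.1 i)‖ ≤ ‖ψ q.1‖ ^ (3 - δ)) ∧
      ‖(q.2.2.2.2 : ℂ) - ψ (q.1 ^ 3 + ∑ i, (q.2.1 i : M) * q.2.2.1 i)‖ ≤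
        |(q.2.2.2.2 : ℝ)| ^ (1 / 2 - η) ∧
      ((∃ z : ℤ, q.1 ^ 3 + ∑ i, (q.2.1 i : M) * q.2.2.1 i = (z : M)) ∨
        (HE g (B * Real.log |(q.2.2.2.2 : ℝ)|) q.1 ∧
          ∀ i, HE g (B * Real.log |(q.2.2.2.2 : ℝ)|) (q.2.2.1 i))) ∧
      q.2.2.2.2 ^ 2 ≠ q.2.2.2.1 ^ 3)
    (fun q => q.2.2.2.1) (fun q => q.2.2.2.2 ^ 2 - q.2.2.2.1 ^ 3) ε hε
    (fun κ q hq => sub_ne_zero.2 hq.2.2.2.2.2.2) (by
      rintro ⟨κ, hκ, C, hC⟩
      exact hcon ⟨κ, hκ, C, fun w c b x y h1 h2 h3 h4 h5 h6 h7 =>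
        hC (w, c, b, x, y) ⟨h1, h2, h3, h4, h5, h6, h7⟩⟩)
  set w : ℕ → M := fun j => (s j).1 with hw
  set c : ℕ → Fin t → ℤ := fun j => (s j).2.1 with hc
  set b : ℕ → Fin t → M := fun j => (s j).2.2.1 with hb
  set x : ℕ → ℤ := fun j => (s j).2.2.2.1 with hx
  set y : ℕ → ℤ := fun j => (s j).2.2.2.2 with hy
  have wSV : ∀ j, SV S (w j) := fun j => (hs j).1.1
  have bSV : ∀ j i, SV S (b j i) := fun j => (hs j).1.2.1
  have cy : ∀ j i, |(c j i : ℝ)| ≤ |(y j : ℝ)| ^ (1 / ((j : ℝ) + 1)) := fun j => (hs j).1.2.2.1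
  have bW : ∀ j i, ‖ψ ((c j i : M) * b j i)‖ ≤ ‖ψ (w j)‖ ^ (3 - δ) := fun j => (hs j).1.2.2.2.1
  have hyw : ∀ j, ‖(y j : ℂ) - ψ (w j ^ 3 + ∑ i, (c j i : M) * b j i)‖ ≤
      |(y j : ℝ)| ^ (1 / 2 - η) := fun j => (hs j).1.2.2.2.2.1
  have hor : ∀ j, (∃ z : ℤ, w j ^ 3 + ∑ i, (c j i : M) * b j i = (z : M)) ∨
      (HE g (B * Real.log |(y j : ℝ)|) (w j) ∧ ∀ i, HE g (B * Real.log |(y j : ℝ)|) (b j i)) :=
    fun j => (hs j).1.2.2.2.2.2.1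
  have hne : ∀ j, y j ^ 2 ≠ x j ^ 3 := fun j => (hs j).1.2.2.2.2.2.2
  have hd1 : ∀ j, |((y j ^ 2 - x j ^ 3 : ℤ) : ℝ)| ≤ |(x j : ℝ)| ^ (1 / (2 + ε)) :=
    fun j => (hs j).2.2
  have hxt : Tendsto (fun j => |(x j : ℝ)|) (φ : Filter ℕ) atTop := hxt
  -- the sizes
  have hsz : ∀ᶠ j in (φ : Filter ℕ), (2 : ℝ) ≤ x j ∧ |(y j : ℝ) ^ 2 - (x j : ℝ) ^ 3| ≤ x j ∧
      (x j : ℝ) ≤ (y j : ℝ) ^ 2 ∧ (y j : ℝ) ^ 2 ≤ (x j : ℝ) ^ 4 := by
    filter_upwards [hxt.eventually_ge_atTop 2] with j hj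
    exact SUBW.sizes hε hj (hd1 j)
  have hyt : Tendsto (fun j => |(y j : ℝ)|) (φ : Filter ℕ) atTop := by
    rw [tendsto_atTop]
    intro B
    filter_upwards [hsz, hxt.eventually_ge_atTop (B ^ 2)] with j hj hB
    obtain ⟨h1, -, h3, -⟩ := hj
    rw [abs_of_nonneg (by linarith : (0 : ℝ) ≤ x j)] at hB
    have h4 : B ^ 2 ≤ |(y j : ℝ)| ^ 2 := by
      rw [sq_abs]
      linarith
    exact le_trans (le_abs_self B) (abs_le_of_sq_le_sq (by linarith) (abs_nonneg _))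
  -- the scale
  set X : ℕ → ℝ := fun j => Real.sqrt |(x j : ℝ)| with hXd
  have hXt : Tendsto X (φ : Filter ℕ) atTop := Real.tendsto_sqrt_atTop.comp hxt
  have hX2 : ∀ j, X j ^ 2 = |(x j : ℝ)| := fun j => Real.sq_sqrt (abs_nonneg _)
  have hX0 : ∀ j, 0 ≤ X j := fun j => Real.sqrt_nonneg _
  have hXY : ∀ᶠ j in (φ : Filter ℕ), |(y j : ℝ)| ≤ 2 * X j ^ 3 ∧ X j ^ 3 ≤ 2 * |(y j : ℝ)| := by
    filter_upwards [hsz] with j hj
    obtain ⟨h1, h2, -, -⟩ := hj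
    have h3 := hX2 j
    rw [abs_of_nonneg (by linarith : (0 : ℝ) ≤ x j)] at h3
    have h4 : (X j ^ 3) ^ 2 = (x j : ℝ) ^ 3 := by
      rw [← h3]
      ring
    have h5 := abs_le.1 h2
    have h6 : 2 * (x j : ℝ) ≤ (x j : ℝ) ^ 3 := by
      nlinarith [mul_nonneg (by linarith : 0 ≤ (x j : ℝ)) (by nlinarith :
        (0 : ℝ) ≤ (x j : ℝ) ^ 2 - 2)]
    have h7 : 0 ≤ X j ^ 3 := pow_nonneg (hX0 j) 3
    constructor
    · refine abs_le_of_sq_le_sq ?_ (by positivity)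
      rw [mul_pow, h4]
      linarith [h5.2]
    · rw [← abs_of_nonneg h7]
      refine abs_le_of_sq_le_sq ?_ (by positivity)
      rw [mul_pow, h4, sq_abs]
      linarith [h5.1]
  have hYX : ∀ᶠ j in (φ : Filter ℕ), |(y j : ℝ)| ≤ X j ^ (4 : ℝ) := by
    filter_upwards [hXY, hXt.eventually_ge_atTop 2] with j h1 h2
    have h3 : X j ^ (4 : ℝ) = X j ^ 4 := by
      rw [← Real.rpow_natCast]
      norm_num
    rw [h3]
    nlinarith [pow_nonneg (hX0 j) 3, h1.1]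
  -- slow coefficients
  obtain ⟨-, -, -, -, -, -, -, -, -, hSy, -, -, hsc⟩ := hSLW M S P φ (fun j => |(y j : ℝ)|) hS hyt
  obtain ⟨hSc, -⟩ := hSLW M S P φ X hS hXt
  obtain ⟨p1, p2, p3, p4, p5, p6, p7, p8, p9, p10, p11, p12, p13⟩ := hSPW M S P φ X hS hXt
  have hcS : ∀ i, Slw P φ (fun j => |(y j : ℝ)|) (fun j => (c j i : M)) := by
    intro i
    refine hSy (fun j => c j i) fun ε' hε' => ?_
    filter_upwards [hκ ε' hε', hyt.eventually_ge_atTop 1] with j h1 h2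
    exact (cy j i).trans (Real.rpow_le_rpow_of_exponent_le h2 h1)
  have hcast : ((3 : ℕ) : ℝ) - δ = 3 - δ := by norm_num
  obtain ⟨hwM, hAM, hsz2⟩ := hMOD2 M S P φ 3 k t g δ B (1 / 2 - η) w (fun i j => c j i)
    (fun i j => b j i) y hS (by norm_num) hδ (by push_cast; exact hδ3) (by linarith) hg hyt
    (Filter.Eventually.of_forall wSV) (fun i => Filter.Eventually.of_forall fun j => bSV j i) hcS
    (fun i => Filter.Eventually.of_forall fun j => by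
      rw [hP, hP, hcast]
      exact bW j i)
    (Filter.Eventually.of_forall fun j => by
      rw [hP, map_sub, map_intCast]
      exact hyw j)
    (Filter.Eventually.of_forall fun j => hor j)
  obtain ⟨sc1, sc2⟩ := hsc X 4 (by norm_num) hXt hYX
  have hwX : MU P φ X w := sc2 w hwM
  set A : ℕ → M := fun j => ∑ i, (c j i : M) * b j i with hA
  have hAX : SpM P φ X A := by
    obtain ⟨t', c', u', h1, h2, h3⟩ := hAM
    exact ⟨t', c', u', fun i => sc1 _ (h1 i), fun i => sc2 _ (h2 i), h3⟩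
  have hbig : ∀ a B : ℝ, 0 < a → ∀ᶠ j in (φ : Filter ℕ), B ≤ X j ^ a := fun a B ha =>
    ((tendsto_rpow_atTop ha).comp hXt).eventually_ge_atTop B
  -- the terms
  have hWA : ∀ᶠ j in (φ : Filter ℕ), X j / 2 ≤ ‖ψ (w j)‖ ∧
      ‖ψ (A j)‖ ≤ ‖ψ (w j)‖ ^ 3 * X j ^ (-(δ / 2)) := by
    filter_upwards [hsz2, hXY, hXt.eventually_ge_atTop 2, hbig (δ / 2) (t * 2 ^ δ) (by linarith)]
      with j h1 h2 h3 h4
    obtain ⟨h5, -, h6⟩ := h1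
    rw [hP] at h5
    rw [hP, hP, hcast] at h6
    exact sizeJ hδ h3 h4 h2.2 h5 (norm_nonneg _) h6
  obtain ⟨R, R', hR, hR', hroot⟩ := hROOT M S P φ X 3 w A (δ / 2) 4 hS hXt (by norm_num)
    (by linarith) hwX hAX (by
      filter_upwards [hWA] with j h1
      rw [hP, hP]
      exact h1.2)
  -- the constants
  set η' : ℝ := min η (1 / 4) with hη'
  have hη0 : 0 < η' := lt_min hη (by norm_num)
  have hη1 : η' ≤ η := min_le_left _ _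
  have hη4 : η' ≤ 1 / 4 := min_le_right _ _
  have hζφ : ψ ζ ^ 2 + ψ ζ + 1 = 0 := by
    have h1 := congrArg ψ hζ
    rw [map_add, map_add, map_pow, map_one, map_zero] at h1
    exact h1
  have hRsz : ∀ᶠ j in (φ : Filter ℕ), X j / 4 ≤ ‖ψ (R j)‖ := by
    filter_upwards [hroot, hWA, hbig (δ / 2 / 2) 2 (by linarith), hXt.eventually_ge_atTop 2]
      with j h1 h2 h3 h4
    obtain ⟨-, -, h5⟩ := h1
    rw [hP, hP, map_sub] at h5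
    have h6 : X j ^ (-(δ / 2 / 2)) ≤ 1 / 2 := by
      rw [Real.rpow_neg (hX0 j), one_div]
      exact inv_anti₀ (by norm_num) h3
    have h7 : ‖ψ (w j)‖ ≤ ‖ψ (R j)‖ + ‖ψ (R j) - ψ (w j)‖ := by
      have h8 : ψ (w j) = ψ (R j) - (ψ (R j) - ψ (w j)) := by ring
      conv_lhs => rw [h8]
      exact norm_sub_le _ _
    have h9 : ‖ψ (w j)‖ * X j ^ (-(δ / 2 / 2)) ≤ ‖ψ (w j)‖ * (1 / 2) :=
      mul_le_mul_of_nonneg_left h6 (norm_nonneg _)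
    linarith [h2.1]
  have hdist : ∀ᶠ j in (φ : Filter ℕ), ‖((y j : ℝ) : ℂ) - ψ (R j) ^ 3‖ ≤
      X j ^ (3 / 2 - 2 * η') := by
    filter_upwards [hroot, hXY, hbig η' 6144 hη0, hXt.eventually_ge_atTop 2,
      hyt.eventually_ge_atTop 1] with j h1 h2 h3 h4 h5
    obtain ⟨h6, -, -⟩ := h1
    have h7 : ((y j : ℝ) : ℂ) - ψ (R j) ^ 3 =
        ((y j : ℂ) - ψ (w j ^ 3 + A j)) - ψ (R j ^ 3 - (w j ^ 3 + A j)) := by
      rw [map_sub, map_pow]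
      push_cast
      ring
    rw [h7]
    refine (norm_sub_le _ _).trans ?_
    rw [hP] at h6
    exact distJ hη0 hη4 hη1 h4 h3 h5 h2.1 (hyw j) h6
  have hana : ∀ᶠ j in (φ : Filter ℕ), ∃ i : Fin 3,
      ‖((x j : ℝ) : ℂ) - ψ ζ ^ (i : ℕ) * ψ (R j) ^ 2‖ ≤ X j ^ (1 / 2 - η') := by
    filter_upwards [hsz, hRsz, hdist, hbig η' 6144 hη0, hXt.eventually_ge_atTop 2]
      with j h1 h2 h3 h4 h5
    have h6 := hX2 j
    rw [abs_of_nonneg (by linarith [h1.1] : (0 : ℝ) ≤ x j)] at h6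
    exact nearJ (ψ ζ) hζφ hη0 hη4 h5 h4 h6.symm h1.2.1 h2 h3
  -- the root of unity
  have hidx : ∀ j, ∃ i : Fin 3, (∃ i : Fin 3,
      ‖((x j : ℝ) : ℂ) - ψ ζ ^ (i : ℕ) * ψ (R j) ^ 2‖ ≤ X j ^ (1 / 2 - η')) →
      ‖((x j : ℝ) : ℂ) - ψ ζ ^ (i : ℕ) * ψ (R j) ^ 2‖ ≤ X j ^ (1 / 2 - η') := by
    intro j
    by_cases h : ∃ i : Fin 3, ‖((x j : ℝ) : ℂ) - ψ ζ ^ (i : ℕ) * ψ (R j) ^ 2‖ ≤
      X j ^ (1 / 2 - η')
    · obtain ⟨i, hi⟩ := h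
      exact ⟨i, fun _ => hi⟩
    · exact ⟨0, fun h' => absurd h' h⟩
  choose ι hι using hidx
  obtain ⟨i0, hi0⟩ := SUBW.ucon φ ι
  have z3 : ζ ^ 3 = 1 := by linear_combination (ζ - 1) * hζ
  have z3i : ∀ n : ℕ, (ζ ^ n) ^ 3 = 1 := fun n => by rw [← pow_mul, mul_comm, pow_mul, z3, one_pow]
  set z : M := ζ ^ (i0 : ℕ) with hz
  have zz : z ^ 3 = 1 := z3i _
  refine hBRG M S P φ x y X (fun j => z ^ 2 * R j) (fun j => z * R' j) (1 / 2 - η') ε 1 hS hε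
    (by linarith) (by linarith) one_pos hXt (Filter.Eventually.of_forall hX2)
    (p8 (fun _ => z ^ 2) _ (p6 _ (hSc _)) hR).2 (p8 (fun _ => z) _ (p6 _ (hSc _)) hR').2 ?_
  filter_upwards [hana, hi0, hroot, hdist, hXt.eventually_ge_atTop 2] with j h1 h2 h3 h4 h5
  have h6 := hι j h1
  rw [h2] at h6
  refine ⟨hne j, hd1 j, ?_, ?_, ?_⟩
  · rw [hP]
    refine le_trans (le_of_eq ?_) h6
    congr 1
    have h7 : (z ^ 2 * R j) ^ 2 = z * R j ^ 2 := by linear_combination (z * R j ^ 2) * zz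
    rw [h7, map_sub, map_mul, map_intCast, hz, map_pow, map_pow]
    push_cast
    rfl
  · have h7 : z ^ 2 * R j * (z * R' j) = R j * R' j := by linear_combination (R j * R' j) * zz
    show P.nv none (z ^ 2 * R j * (z * R' j) - 1) ≤ _
    rw [h7]
    exact h3.2.1
  · have h7 : (z ^ 2 * R j) ^ 3 = R j ^ 3 := by
      linear_combination (R j ^ 3 * (z ^ 3 + 1)) * zz
    rw [hP, h7, map_sub, map_intCast, map_pow]
    have h8 : X j ^ (3 / 2 - 2 * η') ≤ X j ^ ((3 : ℝ) - 1) :=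
      Real.rpow_le_rpow_of_exponent_le (by linarith) (by linarith)
    refine le_trans (le_of_eq ?_) (h4.trans h8)
    push_cast
    rfl

end Pool.Agent.Helper2.JN
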